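import Pool.Agent.Helper84_TMP.Stmt

/-!
# AVG: mean values over finite orbits
-/

open scoped BigOperators

namespace Pool.Agent.TMP.H81

open Pool.Agent.DEN

section
variable {G A B : Type} [Group G] [MulAction G A] [MulAction G B] (J : Subgroup G)

theorem av_map (φ : A → B) (hφ : ∀ (g : G) (a : A), φ (g • a) = g • φ a) (f : B → ℂ) (a : A)
    (hfin : {z | ∃ j ∈ J, z = j • a}.Finite) : av J f (φ a) = av J (fun z => f (φ z)) a := by
  classical
  have hBeq : {z | ∃ j ∈ J, z = j • φ a} = φ '' {z | ∃ j ∈ J, z = j • a} := by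
    ext z
    constructor
    · rintro ⟨j, hj, rfl⟩
      exact ⟨j • a, ⟨j, hj, rfl⟩, hφ j a⟩
    · rintro ⟨w, ⟨j, hj, rfl⟩, rfl⟩
      exact ⟨j, hj, hφ j a⟩
  have hfinB : {z | ∃ j ∈ J, z = j • φ a}.Finite := by rw [hBeq]; exact hfin.image φ
  set SA := hfin.toFinset with hSA
  set SB := hfinB.toFinset with hSB
  have hmA : ∀ z, z ∈ SA ↔ ∃ j ∈ J, z = j • a := fun z => hfin.mem_toFinset
  have hmB : ∀ z, z ∈ SB ↔ ∃ j ∈ J, z = j • φ a := fun z => hfinB.mem_toFinset
  have hmaps : ∀ z ∈ SA, φ z ∈ SB := by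
    intro z hz
    obtain ⟨j, hj, rfl⟩ := (hmA z).mp hz
    exact (hmB _).mpr ⟨j, hj, hφ j a⟩
  set N := (SA.filter (fun z => φ z = φ a)).card with hN
  have hcard : ∀ b ∈ SB, (SA.filter (fun z => φ z = b)).card = N := by
    intro b hb
    obtain ⟨j, hj, rfl⟩ := (hmB b).mp hb
    symm
    refine Finset.card_bij (fun z _ => j • z) ?_ ?_ ?_
    · intro z hz
      rw [Finset.mem_filter] at hz ⊢
      obtain ⟨i, hi, hz1⟩ := (hmA z).mp hz.1
      refine ⟨(hmA _).mpr ⟨j * i, J.mul_mem hj hi, ?_⟩, ?_⟩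
      · rw [hz1, mul_smul]
      · rw [hφ, hz.2]
    · intro z _ w _ h
      exact MulAction.injective j h
    · intro z hz
      rw [Finset.mem_filter] at hz
      obtain ⟨i, hi, hz1⟩ := (hmA z).mp hz.1
      refine ⟨j⁻¹ • z, ?_, smul_inv_smul j z⟩
      rw [Finset.mem_filter]
      refine ⟨(hmA _).mpr ⟨j⁻¹ * i, J.mul_mem (J.inv_mem hj) hi, ?_⟩, ?_⟩
      · rw [hz1, mul_smul]
      · rw [hφ, hz.2, inv_smul_smul]
  have hNpos : 0 < N := Finset.card_pos.mpr ⟨a, by
    rw [Finset.mem_filter]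
    exact ⟨(hmA a).mpr ⟨1, J.one_mem, (one_smul G a).symm⟩, rfl⟩⟩
  have hsum : ∑ z ∈ SA, f (φ z) = N * ∑ b ∈ SB, f b := by
    rw [← Finset.sum_fiberwise_of_maps_to hmaps, Finset.mul_sum]
    refine Finset.sum_congr rfl fun b hb => ?_
    rw [Finset.sum_congr rfl (g := fun _ => f b) (fun z hz => by
      rw [(Finset.mem_filter.mp hz).2]), Finset.sum_const, hcard b hb, nsmul_eq_mul]
  have hcardA : (SA.card : ℂ) = N * SB.card := by
    rw [Finset.card_eq_sum_card_fiberwise hmaps, Finset.sum_congr rfl hcard, Finset.sum_const,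
      smul_eq_mul]
    push_cast
    ring
  unfold av
  rw [finsum_mem_eq_finite_toFinset_sum _ hfin, finsum_mem_eq_finite_toFinset_sum _ hfinB,
    Nat.card_eq_card_finite_toFinset hfin, Nat.card_eq_card_finite_toFinset hfinB, ← hSA, ← hSB,
    hsum, hcardA, mul_div_mul_left]
  exact_mod_cast hNpos.ne'

end

theorem avg : AvgStmt := by
  constructor
  · intro G X Y _ _ _ J x y f g hx hy hfg
    have hfin : {z : X × Y | ∃ j ∈ J, z = j • (x, y)}.Finite := by
      refine (hx.prod hy).subset ?_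
      rintro z ⟨j, hj, rfl⟩
      exact ⟨⟨j, hj, rfl⟩, ⟨j, hj, rfl⟩⟩
    have h1 := av_map J (A := X × Y) (B := X) Prod.fst (fun _ _ => rfl) f (x, y) hfin
    have h2 := av_map J (A := X × Y) (B := Y) Prod.snd (fun _ _ => rfl) g (x, y) hfin
    simp only at h1 h2
    rw [h1, h2]
    unfold av
    congr 1
    refine finsum_mem_congr rfl ?_
    rintro z ⟨j, hj, rfl⟩
    exact hfg j hj
  · intro G X _ _ J f S c hS hJ hav
    classical
    set T := hS.toFinset with hT
    have hmT : ∀ z, z ∈ T ↔ z ∈ S := fun z => hS.mem_toFinset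
    let R : X → X → Prop := fun x y => ∃ j ∈ J, y = j • x
    have hRs : ∀ x y, R x y → R y x := by
      rintro x y ⟨j, hj, rfl⟩
      exact ⟨j⁻¹, J.inv_mem hj, (inv_smul_smul j x).symm⟩
    have hRt : ∀ x y z, R x y → R y z → R x z := by
      rintro x y z ⟨j, hj, rfl⟩ ⟨i, hi, rfl⟩
      exact ⟨i * j, J.mul_mem hi hj, (mul_smul i j x).symm⟩
    have hO : ∀ x ∈ S, {y | ∃ j ∈ J, y = j • x} = ↑(T.filter (R x)) := by
      intro x hx
      ext y
      rw [Finset.mem_coe, Finset.mem_filter, hmT]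
      constructor
      · rintro ⟨j, hj, rfl⟩
        exact ⟨hJ j hj x hx, j, hj, rfl⟩
      · rintro ⟨-, h⟩
        exact h
    have hav2 : ∀ x ∈ T, c = (∑ y ∈ T.filter (R x), f y) / ((T.filter (R x)).card : ℂ) := by
      intro x hx
      rw [hmT] at hx
      rw [← hav x hx]
      unfold av
      rw [hO x hx, finsum_mem_coe_finset]
      congr 1
      simp
    have hNeq : ∀ x y, R x y → T.filter (R x) = T.filter (R y) := by
      intro x y h
      refine Finset.filter_congr fun z _ => ?_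
      exact ⟨fun h' => hRt y x z (hRs _ _ h) h', fun h' => hRt x y z h h'⟩
    have hNpos : ∀ x ∈ T, ((T.filter (R x)).card : ℂ) ≠ 0 := by
      intro x hx
      have : 0 < (T.filter (R x)).card := Finset.card_pos.mpr ⟨x, by
        rw [Finset.mem_filter]
        exact ⟨hx, 1, J.one_mem, (one_smul G x).symm⟩⟩
      exact_mod_cast this.ne'
    have hmain : ∑ x ∈ T, c = ∑ y ∈ T, f y := by
      rw [Finset.sum_congr rfl hav2]
      calc ∑ x ∈ T, (∑ y ∈ T.filter (R x), f y) / ((T.filter (R x)).card : ℂ)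
          = ∑ x ∈ T, ∑ y ∈ T, if R x y then f y / ((T.filter (R x)).card : ℂ) else 0 := by
            refine Finset.sum_congr rfl fun x _ => ?_
            rw [Finset.sum_div, Finset.sum_filter]
        _ = ∑ y ∈ T, ∑ x ∈ T, if R x y then f y / ((T.filter (R x)).card : ℂ) else 0 :=
            Finset.sum_comm
        _ = ∑ y ∈ T, f y := by
            refine Finset.sum_congr rfl fun y hy => ?_
            have h1 : ∀ x ∈ T, (if R x y then f y / ((T.filter (R x)).card : ℂ) else 0) =
                if R y x then f y / ((T.filter (R y)).card : ℂ) else 0 := by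
              intro x _
              by_cases h : R x y
              · rw [if_pos h, if_pos (hRs _ _ h), hNeq x y h]
              · rw [if_neg h, if_neg (fun h' => h (hRs _ _ h'))]
            rw [Finset.sum_congr rfl h1, ← Finset.sum_filter, Finset.sum_const, nsmul_eq_mul,
              mul_div_cancel₀ _ (hNpos y hy)]
    rw [finsum_mem_eq_finite_toFinset_sum _ hS, ← hT, ← hmain, Finset.sum_const, nsmul_eq_mul,
      Nat.card_eq_card_finite_toFinset hS, ← hT, mul_comm]

end Pool.Agent.TMP.H81
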