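import Pool.Agent.Helper84_TMP.Stmt

/-!
# KOR: the `K`-orbit of `t^l o` is the union of the Iwahori orbits of the `t^m o`, `m ∈ W l`
-/

open scoped BigOperators

namespace Pool.Agent.TMP.H81

open Pool.Agent.DEN

section
variable {r : ℕ} {C : Matrix (Fin r) (Fin r) ℤ} {K : Type} [Field K]

theorem ip_sf (hC : SimplyLaced C) (i : Fin r) (m : Fin r → ℤ) :
    ip C (al i) (sf C i m) = - ip C (al i) m := by
  unfold sf
  rw [ip_sub_right, ip_smul_right]
  have h : ip C (al i) (al i) = 2 := by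
    rw [ip_al_al]
    exact hC.diag i
  rw [h]
  ring

theorem sf_sf (hC : SimplyLaced C) (i : Fin r) (m : Fin r → ℤ) : sf C i (sf C i m) = m := by
  have h := ip_sf hC i m
  unfold sf at h ⊢
  rw [h]
  simp

theorem WR_tail {l m : Fin r → ℤ} (i : Fin r) (h : WR C l m) : WR C l (sf C i m) :=
  Relation.ReflTransGen.tail h ⟨i, rfl⟩

/-- The union of the Iwahori orbits. -/
def SS (hC : SimplyLaced C) (K : Type) [Field K] (l : Fin r → ℤ) : Set (XX C K) :=
  {x | ∃ m : Fin r → ℤ, WR C l m ∧ ∃ g ∈ Iw hC K, x = g • tp hC K m}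

/-- The elements `g` such that `g` and `g⁻¹` preserve the set. -/
def HH (S : Set (XX C K)) : Subgroup (grp C K) where
  carrier := {g | (∀ x ∈ S, g • x ∈ S) ∧ ∀ x ∈ S, g⁻¹ • x ∈ S}
  mul_mem' := by
    rintro a b ⟨ha, ha'⟩ ⟨hb, hb'⟩
    refine ⟨fun x hx => ?_, fun x hx => ?_⟩
    · rw [mul_smul]
      exact ha _ (hb _ hx)
    · rw [mul_inv_rev, mul_smul]
      exact hb' _ (ha' _ hx)
  one_mem' := ⟨fun x hx => by rwa [one_smul], fun x hx => by rwa [inv_one, one_smul]⟩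
  inv_mem' := by
    rintro a ⟨ha, ha'⟩
    exact ⟨ha', fun x hx => by rw [inv_inv]; exact ha x hx⟩

theorem mem_HH (S : Set (XX C K)) (g : grp C K) :
    g ∈ HH S ↔ (∀ x ∈ S, g • x ∈ S) ∧ ∀ x ∈ S, g⁻¹ • x ∈ S := Iff.rfl

/-- The step of one reflection. -/
theorem wi_line (lin : LinStmt) (hC : SimplyLaced C) (i : Fin r) (m : Fin r → ℤ)
    {j : grp C K} (hj : j ∈ Ii hC K i) :
    (∃ j' ∈ Ii hC K i, ∃ m' : Fin r → ℤ, (m' = m ∨ m' = sf C i m) ∧
      wi hC K i • j • tp hC K m = j' • tp hC K m') ∧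
    (∃ j' ∈ Ii hC K i, ∃ m' : Fin r → ℤ, (m' = m ∨ m' = sf C i m) ∧
      (wi hC K i)⁻¹ • j • tp hC K m = j' • tp hC K m') := by
  have key : ∀ l : Fin r → ℤ, ip C (al i) l ≤ 0 → ∀ n : Fin r → ℤ, (n = l ∨ n = sf C i l) →
      (∃ j' ∈ Ii hC K i, ∃ m' : Fin r → ℤ, (m' = l ∨ m' = sf C i l) ∧
        wi hC K i • j • tp hC K n = j' • tp hC K m') ∧
      (∃ j' ∈ Ii hC K i, ∃ m' : Fin r → ℤ, (m' = l ∨ m' = sf C i l) ∧
        (wi hC K i)⁻¹ • j • tp hC K n = j' • tp hC K m') := by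
    intro l hl n hn
    obtain ⟨h1, h2, h3⟩ := (lin r C hC K i).1 l hl
    have hy : (∃ b ∈ Bd K 0, j • tp hC K n = xi hC i b • tp hC K l) ∨
        (∃ b ∈ Bd K (-1), j • tp hC K n = wi hC K i • xi hC i b • tp hC K l) := by
      rcases hn with rfl | rfl
      · left
        have : j • tp hC K n ∈ {y : XX C K | ∃ j ∈ Ii hC K i, y = j • tp hC K n} := ⟨j, hj, rfl⟩
        rw [h1] at this
        exact this
      · right
        have : j • tp hC K (sf C i l) ∈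
            {y : XX C K | ∃ j ∈ Ii hC K i, y = j • tp hC K (sf C i l)} := ⟨j, hj, rfl⟩
        rw [h2] at this
        exact this
    have back : ∀ z : XX C K, ((∃ b ∈ Bd K 0, z = xi hC i b • tp hC K l) ∨
        (∃ b ∈ Bd K (-1), z = wi hC K i • xi hC i b • tp hC K l)) →
        ∃ j' ∈ Ii hC K i, ∃ m' : Fin r → ℤ, (m' = l ∨ m' = sf C i l) ∧ z = j' • tp hC K m' := by
      intro z hz
      rcases hz with hz | hz
      · have hz2 : z ∈ {y : XX C K | ∃ b ∈ Bd K 0, y = xi hC i b • tp hC K l} := hz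
        rw [← h1] at hz2
        obtain ⟨j', hj', h⟩ := hz2
        exact ⟨j', hj', l, Or.inl rfl, h⟩
      · have hz2 : z ∈ {y : XX C K | ∃ b ∈ Bd K (-1), y = wi hC K i • xi hC i b • tp hC K l} := hz
        rw [← h2] at hz2
        obtain ⟨j', hj', h⟩ := hz2
        exact ⟨j', hj', sf C i l, Or.inr rfl, h⟩
    obtain ⟨h4, h5⟩ := h3 _ hy
    exact ⟨back _ h4, back _ h5⟩
  rcases le_total (ip C (al i) m) 0 with hm | hm
  · exact key m hm m (Or.inl rfl)
  · have h := key (sf C i m) (by rw [ip_sf hC]; omega) m (Or.inr (sf_sf hC i m).symm)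
    rw [sf_sf hC] at h
    obtain ⟨⟨j1, hj1, m1, hm1, e1⟩, ⟨j2, hj2, m2, hm2, e2⟩⟩ := h
    exact ⟨⟨j1, hj1, m1, hm1.symm, e1⟩, ⟨j2, hj2, m2, hm2.symm, e2⟩⟩

theorem Iw_le_HH (hC : SimplyLaced C) (l : Fin r → ℤ) : Iw hC K ≤ HH (SS hC K l) := by
  have h : ∀ g ∈ Iw hC K, ∀ x ∈ SS hC K l, g • x ∈ SS hC K l := by
    rintro g hg x ⟨m, hm, g', hg', rfl⟩
    exact ⟨m, hm, g * g', (Iw hC K).mul_mem hg hg', (mul_smul g g' _).symm⟩
  intro g hg
  exact ⟨h g hg, h g⁻¹ ((Iw hC K).inv_mem hg)⟩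

theorem wi_mem_HH (vis : VisStmt) (lin : LinStmt) (hC : SimplyLaced C) (l : Fin r → ℤ)
    (i : Fin r) : wi hC K i ∈ HH (SS hC K l) := by
  obtain ⟨-, v2, v3, -⟩ := vis r C hC K
  obtain ⟨hV, hI, -, hdec⟩ := v3 i
  constructor
  · rintro x ⟨m, hm, g, hg, rfl⟩
    obtain ⟨v, hv, j, hj, rfl⟩ := hdec g hg
    obtain ⟨j', hj', m', hm', e⟩ := (wi_line lin hC i m hj).1
    have hWm' : WR C l m' := by
      rcases hm' with rfl | rfl
      · exact hm
      · exact WR_tail i hm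
    refine ⟨m', hWm', (wi hC K i * v * (wi hC K i)⁻¹) * j',
      (Iw hC K).mul_mem (hV (v2 i v hv).1) (hI hj'), ?_⟩
    rw [mul_smul _ j', ← e, ← mul_smul, ← mul_smul, ← mul_smul]
    congr 1
    group
  · rintro x ⟨m, hm, g, hg, rfl⟩
    obtain ⟨v, hv, j, hj, rfl⟩ := hdec g hg
    obtain ⟨j', hj', m', hm', e⟩ := (wi_line lin hC i m hj).2
    have hWm' : WR C l m' := by
      rcases hm' with rfl | rfl
      · exact hm
      · exact WR_tail i hm
    refine ⟨m', hWm', ((wi hC K i)⁻¹ * v * wi hC K i) * j',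
      (Iw hC K).mul_mem (hV (v2 i v hv).2) (hI hj'), ?_⟩
    rw [mul_smul _ j', ← e, ← mul_smul, ← mul_smul, ← mul_smul]
    congr 1
    group

end

theorem kor (kgn : KgnStmt) (vis : VisStmt) (lin : LinStmt) : KorStmt := by
  intro r C hC K _ l
  constructor
  · intro k hk
    have hle : maxK C K ≤ HH (SS hC K l) := by
      rw [kgn r C hC K, Subgroup.closure_le]
      rintro g ⟨β, a, ha, rfl⟩
      exact (vis r C hC K).2.2.2.1 _ (Iw_le_HH hC l) (wi_mem_HH vis lin hC l) β a ha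
    have h0 : tp hC K l ∈ SS hC K l :=
      ⟨l, Relation.ReflTransGen.refl, 1, (Iw hC K).one_mem, (one_smul _ _).symm⟩
    exact (hle hk).1 _ h0
  · intro m hm
    induction hm with
    | refl => exact ⟨1, (maxK C K).one_mem, (one_smul _ _).symm⟩
    | tail _ h ih =>
      obtain ⟨k, hk, e⟩ := ih
      obtain ⟨i, rfl⟩ := h
      exact ⟨wi hC K i * k, (maxK C K).mul_mem (wi_maxK hC i) hk, by
        rw [mul_smul, ← e, wi_tp]⟩

end Pool.Agent.TMP.H81
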